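import Mathlib
import Pool.Agent.Results.MP_7d9e78_al.NotSpecialCharThree

set_option autoImplicit false

/-!
# One nonspecial nilpotent algebra in all the varieties of J(V, f) in characteristic 3

Over an infinite field of characteristic 3 the 12-dimensional algebra `E F` of the starting file
`NotSpecialCharThree` is nilpotent (all products of six elements vanish), generated by three
elements, not special, and it lies in the variety generated by `J(V, f)` for all symmetric bilinear
forms `f` of rank at least two simultaneously.
-/

namespace Pool.Agent.Results.MP_7d9e78_al.OneNilpotentAlgebra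

open Pool.Agent.Results.MP_7d9e78_al.NotSpecialCharThree

universe u w v

/-- The variety of Jordan algebras over `F` defined by the set `T` of identities is special: every
Jordan algebra over `F` which satisfies all identities of `T` is special. -/
def VarietyIsSpecial {F : Type u} [Field F] (T : Set (FreeNonUnitalNonAssocAlgebra F ℕ)) : Prop :=
  ∀ (J : Type u) [NonUnitalNonAssocCommRing J] [Module F J] [IsScalarTower F J J]
    [SMulCommClass F J J], JordanIdentity J → (∀ p ∈ T, IsIdentity F J p) → IsSpecial.{v} F J

section nil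

variable {F : Type u} [Field F]

/-- The degrees of the basis vectors of `E F`. -/
def dg : Fin 12 → ℕ := ![1, 1, 1, 2, 2, 2, 3, 3, 3, 3, 4, 5]

/-- The elements all of whose components of degree less than `k` vanish. -/
def Fil (k : ℕ) (f : E F) : Prop := ∀ i : Fin 12, dg i < k → f i = 0

theorem fil_one (f : E F) : Fil 1 f := by
  intro i hi
  exfalso
  revert hi i
  decide

theorem fil_mul {a b : ℕ} {f g : E F} (hf : Fil a f) (hg : Fil b g) : Fil (a + b) (f * g) := by
  have tm : ∀ i j : Fin 12, dg i + dg j < a + b → f i * g j = 0 := by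
    intro i j h
    by_cases h1 : dg i < a
    · rw [hf i h1, zero_mul]
    · have h2 : dg j < b := by omega
      rw [hg j h2, mul_zero]
  intro i hi
  rw [E.mul_def]
  have d0 : dg 0 = 1 := rfl
  have d1 : dg 1 = 1 := rfl
  have d2 : dg 2 = 1 := rfl
  have d3 : dg 3 = 2 := rfl
  have d4 : dg 4 = 2 := rfl
  have d5 : dg 5 = 2 := rfl
  have d6 : dg 6 = 3 := rfl
  have d7 : dg 7 = 3 := rfl
  have d8 : dg 8 = 3 := rfl
  have d9 : dg 9 = 3 := rfl
  have d10 : dg 10 = 4 := rfl
  have d11 : dg 11 = 5 := rfl
  fin_cases i
  · exact E.m0 f g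
  · exact E.m1 f g
  · exact E.m2 f g
  · change dg 3 < a + b at hi
    refine (E.m3 f g).trans ?_
    rw [tm 0 0 (by omega)]
  · change dg 4 < a + b at hi
    refine (E.m4 f g).trans ?_
    rw [tm 0 2 (by omega), tm 2 0 (by omega), add_zero]
  · change dg 5 < a + b at hi
    refine (E.m5 f g).trans ?_
    rw [tm 1 1 (by omega)]
  · change dg 6 < a + b at hi
    refine (E.m6 f g).trans ?_
    rw [tm 1 3 (by omega), tm 3 1 (by omega), add_zero]
  · change dg 7 < a + b at hi
    refine (E.m7 f g).trans ?_
    rw [tm 1 4 (by omega), tm 4 1 (by omega), add_zero]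
  · change dg 8 < a + b at hi
    refine (E.m8 f g).trans ?_
    rw [tm 0 5 (by omega), tm 5 0 (by omega), add_zero]
  · change dg 9 < a + b at hi
    refine (E.m9 f g).trans ?_
    rw [tm 2 5 (by omega), tm 5 2 (by omega), add_zero]
  · change dg 10 < a + b at hi
    refine (E.m10 f g).trans ?_
    rw [tm 0 7 (by omega), tm 7 0 (by omega), tm 2 6 (by omega), tm 6 2 (by omega), add_zero,
      add_zero]
  · change dg 11 < a + b at hi
    refine (E.m11 f g).trans ?_
    rw [tm 1 10 (by omega), tm 10 1 (by omega), tm 3 9 (by omega), tm 9 3 (by omega),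
      tm 4 8 (by omega), tm 8 4 (by omega), add_zero, add_zero, add_zero]

theorem fil_word (x : FreeMagma (E F)) : Fil x.length (FreeMagma.lift (id : E F → E F) x) := by
  induction x with
  | ih1 x => exact fil_one _
  | ih2 x y hx hy =>
    change Fil (x.length + y.length)
      (FreeMagma.lift (id : E F → E F) x * FreeMagma.lift (id : E F → E F) y)
    exact fil_mul hx hy

theorem nilp (x : FreeMagma (E F)) (h : 6 ≤ x.length) :
    FreeMagma.lift (id : E F → E F) x = 0 := by
  funext i
  have hi : dg i < 6 := by
    revert i
    decide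
  exact fil_word x i (lt_of_lt_of_le hi h)

theorem gen (S : NonUnitalSubalgebra F (E F)) (h0 : bas F 0 ∈ S) (h1 : bas F 1 ∈ S)
    (h2 : bas F 2 ∈ S) : S = ⊤ := by
  have h3 : bas F 3 ∈ S := by
    have := bas_mul F 0 0 (by norm_num) (by norm_num)
    rw [show mulB 0 0 = 3 from rfl] at this
    rw [← this]; exact S.mul_mem h0 h0
  have h4 : bas F 4 ∈ S := by
    have := bas_mul F 0 2 (by norm_num) (by norm_num)
    rw [show mulB 0 2 = 4 from rfl] at this
    rw [← this]; exact S.mul_mem h0 h2
  have h5 : bas F 5 ∈ S := by
    have := bas_mul F 1 1 (by norm_num) (by norm_num)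
    rw [show mulB 1 1 = 5 from rfl] at this
    rw [← this]; exact S.mul_mem h1 h1
  have h6 : bas F 6 ∈ S := by
    have := bas_mul F 1 3 (by norm_num) (by norm_num)
    rw [show mulB 1 3 = 6 from rfl] at this
    rw [← this]; exact S.mul_mem h1 h3
  have h7 : bas F 7 ∈ S := by
    have := bas_mul F 1 4 (by norm_num) (by norm_num)
    rw [show mulB 1 4 = 7 from rfl] at this
    rw [← this]; exact S.mul_mem h1 h4
  have h8 : bas F 8 ∈ S := by
    have := bas_mul F 0 5 (by norm_num) (by norm_num)
    rw [show mulB 0 5 = 8 from rfl] at this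
    rw [← this]; exact S.mul_mem h0 h5
  have h9 : bas F 9 ∈ S := by
    have := bas_mul F 2 5 (by norm_num) (by norm_num)
    rw [show mulB 2 5 = 9 from rfl] at this
    rw [← this]; exact S.mul_mem h2 h5
  have h10 : bas F 10 ∈ S := by
    have := bas_mul F 2 6 (by norm_num) (by norm_num)
    rw [show mulB 2 6 = 10 from rfl] at this
    rw [← this]; exact S.mul_mem h2 h6
  have h11 : bas F 11 ∈ S := by
    have := bas_mul F 1 10 (by norm_num) (by norm_num)
    rw [show mulB 1 10 = 11 from rfl] at this
    rw [← this]; exact S.mul_mem h1 h10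
  have hall : ∀ i : Fin 12, bas F (i : ℕ) ∈ S := by
    intro i
    fin_cases i
    · exact h0
    · exact h1
    · exact h2
    · exact h3
    · exact h4
    · exact h5
    · exact h6
    · exact h7
    · exact h8
    · exact h9
    · exact h10
    · exact h11
  rw [eq_top_iff]
  intro α _
  have key : ∑ i : Fin 12, α i • bas F (i : ℕ) = α := by
    have key : ∀ j : Fin 12, (∑ i : Fin 12, α i • bas F (i : ℕ)) j = α j := by
      intro j
      have h1 : (∑ i : Fin 12, α i • bas F (i : ℕ)) j = ∑ i : Fin 12, (α i • bas F (i : ℕ)) j :=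
        Finset.sum_apply (M := fun _ => F) j Finset.univ (fun i : Fin 12 => (α i • bas F (i : ℕ)))
      rw [h1, Finset.sum_eq_single j]
      · change α j * (if (j : ℕ) = (j : ℕ) then 1 else 0) = α j
        simp
      · intro i _ hij
        change α i * (if (j : ℕ) = (i : ℕ) then 1 else 0) = 0
        rw [if_neg, mul_zero]
        intro h; exact hij (Fin.ext h.symm)
      · intro h; exact absurd (Finset.mem_univ j) h
    exact funext key
  rw [← key]
  exact sum_mem fun i _ => SMulMemClass.smul_mem (α i) (hall i)

theorem rk : Module.finrank F (E F) = 12 :=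
  (Module.finrank_fin_fun F : Module.finrank F (Fin 12 → F) = 12)

end nil

/-- **Main result.** Let `F` be an infinite field of characteristic `3`.

(1) There is one Jordan algebra `E` over `F` with the following properties: it has dimension `12`,
it is generated by three elements, all products of at least six elements of `E` vanish (in
particular `E` is nilpotent), it is not special, and it lies in the variety generated by `J(V, f)`
for all vector spaces `V` over `F` and all symmetric bilinear forms `f` of rank at least two on `V`.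

(2) Hence a special variety of Jordan algebras over `F` contains no `J(V, f)` with `f` symmetric of
rank at least two: if `J(V, f)` satisfies all identities of `T`, then the variety of Jordan algebras
defined by `T` is not special.

(3) Over every such field `F` there are symmetric bilinear forms of rank at least two, already on
`F × F`, so the answer to Question 1 is negative over every infinite field of characteristic `3`. -/
theorem result (F : Type u) [Field F] [Infinite F] [CharP F 3] :
    (∃ (E : Type u) (_ : NonUnitalNonAssocCommRing E) (_ : Module F E) (_ : IsScalarTower F E E)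
      (_ : SMulCommClass F E E),
      JordanIdentity E ∧ Module.finrank F E = 12 ∧
      (∃ a b c : E, ∀ S : NonUnitalSubalgebra F E, a ∈ S → b ∈ S → c ∈ S → S = ⊤) ∧
      (∀ x : FreeMagma E, 6 ≤ x.length → FreeMagma.lift (id : E → E) x = 0) ∧
      ¬ IsSpecial.{v} F E ∧
      ∀ (V : Type w) [AddCommGroup V] [Module F V] (f : LinearMap.BilinForm F V),
        f.IsSymm → RankAtLeastTwo f → InVar F (JV f) E) ∧
    (∀ (T : Set (FreeNonUnitalNonAssocAlgebra F ℕ)) (V : Type w) [AddCommGroup V] [Module F V]
      (f : LinearMap.BilinForm F V), f.IsSymm → RankAtLeastTwo f →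
        (∀ p ∈ T, IsIdentity F (JV f) p) → ¬ VarietyIsSpecial.{u, v} T) ∧
    ∃ f : LinearMap.BilinForm F (F × F), f.IsSymm ∧ RankAtLeastTwo f ∧
      ¬ VarIsSpecial.{u, u, v} f := by
  have h3 : (3 : F) = 0 := by
    have := CharP.cast_eq_zero F 3
    exact_mod_cast this
  have h2 : (2 : F) ≠ 0 := by
    intro h
    apply one_ne_zero (α := F)
    linear_combination h3 - h
  refine ⟨⟨E F, inferInstance, inferInstance, inferInstance, inferInstance, E.jordan h3, rk,
    ⟨bas F 0, bas F 1, bas F 2, fun S h0 h1 h2 => gen S h0 h1 h2⟩, nilp, not_special h2, ?_⟩, ?_,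
    ?_⟩
  · intro V _ _ f hf hr
    exact (main.{u, w, v} F V f hf.eq hr).2.1
  · intro T V _ _ f hf hr hT hs
    exact not_special h2 (hs (E F) (E.jordan h3)
      fun p hp => (main.{u, w, v} F V f hf.eq hr).2.1 p (hT p hp))
  · let f : LinearMap.BilinForm F (F × F) :=
      LinearMap.mk₂ F (fun x y => x.1 * y.1 + x.2 * y.2)
        (by intro x y z; simp only [Prod.fst_add, Prod.snd_add]; ring)
        (by intro c x y; simp only [Prod.smul_fst, Prod.smul_snd, smul_eq_mul]; ring)
        (by intro x y z; simp only [Prod.fst_add, Prod.snd_add]; ring)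
        (by intro c x y; simp only [Prod.smul_fst, Prod.smul_snd, smul_eq_mul]; ring)
    have hf : ∀ x y, f x y = f y x := by
      intro x y
      change x.1 * y.1 + x.2 * y.2 = y.1 * x.1 + y.2 * x.2
      ring
    have hd : ∃ x y, f x x * f y y ≠ f x y * f x y := by
      refine ⟨(1, 0), (0, 1), ?_⟩
      change ((1 : F) * 1 + 0 * 0) * (0 * 0 + 1 * 1) ≠ (1 * 0 + 0 * 1) * (1 * 0 + 0 * 1)
      norm_num
    exact ⟨f, ⟨hf⟩, hd, fun h => not_special h2
      (h (E F) (E.jordan h3) (main.{u, u, v} F (F × F) f hf hd).2.1)⟩

end Pool.Agent.Results.MP_7d9e78_al.OneNilpotentAlgebra
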